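import Mathlib
import Pool.Agent.Q172.Hadw.Hull

set_option autoImplicit false

/-!
# MP_eba1ef_gt: convex hulls of lower-dimensional convex sets

For a compact convex set `B` let `c(B)` be the least number of translates of the relative interior
of `B` that cover `B`. Let `K` be a convex body in `ℝ^d` that is the convex hull of the union of the
compact convex sets `B_1, …, B_m` (of any dimensions; for instance a polytope and its vertices, or a
body all of whose extreme points lie in `m` given flats). It is proved: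

1. `c(K) ≤ c(B_1) + … + c(B_m)`.
2. If each `B_j` has dimension at most `2` or satisfies `c(B_j) ≤ 2 ^ dim B_j`, and
   `∑ 2 ^ dim B_j ≤ 2 ^ d`, then `c(K) ≤ 2 ^ d`, as conjectured. So the conjecture is true for all
   convex bodies in `ℝ³` that are the convex hull of two planar convex sets, or of a planar convex set
   and two segments, for the convex hulls of four planar convex sets in `ℝ⁴`, etc.
3. If the conjecture is true in all dimensions smaller than `d`, and `K` is a counterexample which
   is the convex hull of the sets `B_j`, all of them of dimension smaller than `d`, then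
   `∑ 2 ^ dim B_j > 2 ^ d`. In particular: a counterexample of least dimension is not the convex hull
   of two convex sets of smaller dimension.
4. If `2 ≤ k`, `dim B_j ≤ k` for all `j`, and `3 m 2^k k log (2 k² + 2 k + 1) ≤ 2^d`, then
   `c(K) ≤ 2 ^ d`. So the conjecture is true for the convex hull of any `m` convex sets whose
   dimensions are at most `d - log₂ (3 m d log (2 d² + 2 d + 1))`.

The proof. If `b ∈ B_j` is in the translate `t + relint B_j`, then, with some room to spare, by
compactness, `b - t` is in the relative interior of `B_j`, and a small shift of a fixed size, towards an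
interior point of `K`, leads from there to the interior of `K`. So `B_j` is illuminated in `K` by
`c(B_j)` directions. Each extreme point of `K` is in some `B_j`, and each boundary point of `K` is
illuminated by all directions which illuminate a suitable extreme point. Part 4 uses the bound for
all convex bodies, `AllConvexBodies`, of the starting files, in the affine hulls of the `B_j`.
-/

namespace Pool.Agent.Results.MP_eba1ef_gt.ConvexHulls

/-- The Euclidean space `ℝ^d`. -/
abbrev Eu (d : ℕ) : Type := EuclideanSpace ℝ (Fin d)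

/-- `K` is a convex body: convex, compact, with nonempty interior. -/
def IsConvexBody {d : ℕ} (K : Set (Eu d)) : Prop :=
  Convex ℝ K ∧ IsCompact K ∧ (interior K).Nonempty

/-- `K` is covered by at most `N` translates of its interior. -/
def CoveredBy {d : ℕ} (K : Set (Eu d)) (N : ℕ) : Prop :=
  ∃ T : Finset (Eu d), T.card ≤ N ∧ K ⊆ ⋃ t ∈ T, (fun x => t + x) '' interior K

/-- `B` is covered by at most `N` translates of its relative interior. -/
def RelCoveredBy {d : ℕ} (B : Set (Eu d)) (N : ℕ) : Prop :=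
  ∃ T : Finset (Eu d), T.card ≤ N ∧ B ⊆ ⋃ t ∈ T, (fun x => t + x) '' intrinsicInterior ℝ B

/-- The dimension of (the affine hull of) `B`. -/
noncomputable def dim {d : ℕ} (B : Set (Eu d)) : ℕ := Module.finrank ℝ (vectorSpan ℝ B)

/-- **Main theorem.** Let the convex body `K` in `ℝ^d` be the convex hull of the union of the compact
convex sets `B_1, …, B_m`. -/
theorem result (d m : ℕ) (K : Set (Eu d)) (B : Fin m → Set (Eu d)) (hK : IsConvexBody K)
    (hB : ∀ j, Convex ℝ (B j) ∧ IsCompact (B j)) (hKB : K = convexHull ℝ (⋃ j, B j)) :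
    -- 1. the bound
    (∀ N : Fin m → ℕ, (∀ j, RelCoveredBy (B j) (N j)) → CoveredBy K (∑ j, N j)) ∧
    -- 2. summands which satisfy the conjecture
    ((∀ j, dim (B j) ≤ 2 ∨ RelCoveredBy (B j) (2 ^ dim (B j))) → ∑ j, 2 ^ dim (B j) ≤ 2 ^ d →
      CoveredBy K (2 ^ d)) ∧
    -- 3. counterexamples of least dimension
    ((∀ k < d, ∀ K' : Set (Eu k), IsConvexBody K' → CoveredBy K' (2 ^ k)) →
      ¬ CoveredBy K (2 ^ d) → (∀ j, dim (B j) < d) → 2 ^ d < ∑ j, 2 ^ dim (B j) ∧ 2 < m) ∧
    -- 4. sets of dimension at most `k`, without hypotheses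
    (∀ k : ℕ, 2 ≤ k → (∀ j, dim (B j) ≤ k) →
      3 * (m : ℝ) * 2 ^ k * (k * Real.log (2 * k ^ 2 + 2 * k + 1)) ≤ 2 ^ d →
      CoveredBy K (2 ^ d)) := by
  have key : ∀ N : Fin m → ℕ, (∀ j, RelCoveredBy (B j) (N j)) → CoveredBy K (∑ j, N j) :=
    fun N hN => Q172.Hadw.hull_bound hK.1 hK.2.1 hK.2.2 m B (fun j => (hB j).1)
      (fun j => (hB j).2) hKB N hN
  have mono : ∀ {N M : ℕ}, CoveredBy K N → N ≤ M → CoveredBy K M := by
    rintro N M ⟨T, hT, hcov⟩ h
    exact ⟨T, hT.trans h, hcov⟩
  have conj : ∀ j, (∀ K' : Set (Eu (dim (B j))), IsConvexBody K' →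
      CoveredBy K' (2 ^ dim (B j))) → RelCoveredBy (B j) (2 ^ dim (B j)) := fun j h =>
    Q172.Hadw.rel_of_dim (B j) (hB j).1 (hB j).2 _ (fun X h1 h2 h3 => h X ⟨h1, h2, h3⟩)
  have hrel : ∀ j, dim (B j) ≤ 2 ∨ RelCoveredBy (B j) (2 ^ dim (B j)) →
      RelCoveredBy (B j) (2 ^ dim (B j)) := by
    rintro j (h | h)
    · refine conj j fun K' hK' => ?_
      exact Pool.Agent.W677.Summand.body_le_two h hK'
    · exact h
  refine ⟨key, ?_, ?_, ?_⟩
  · intro h1 h2
    exact mono (key _ fun j => hrel j (h1 j)) h2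
  · intro h1 h2 h3
    have h4 : CoveredBy K (∑ j, 2 ^ dim (B j)) := key _ fun j => conj j (h1 _ (h3 j))
    have h5 : 2 ^ d < ∑ j, 2 ^ dim (B j) := by
      by_contra hcon
      exact h2 (mono h4 (not_lt.1 hcon))
    refine ⟨h5, ?_⟩
    by_contra hcon
    have hm : m ≤ 2 := not_lt.1 hcon
    rcases Nat.eq_zero_or_pos d with hd | hd
    · subst hd
      exact absurd h5 (by
        rcases Nat.eq_zero_or_pos m with hm0 | hm0
        · subst hm0; simp
        · exact absurd (h3 ⟨0, hm0⟩) (by omega))
    · have h6 : ∑ j, 2 ^ dim (B j) ≤ ∑ _j : Fin m, 2 ^ (d - 1) :=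
        Finset.sum_le_sum fun j _ => Nat.pow_le_pow_right (by norm_num) (by
          have := h3 j
          omega)
      rw [Finset.sum_const, Finset.card_univ, Fintype.card_fin, smul_eq_mul] at h6
      have h7 : m * 2 ^ (d - 1) ≤ 2 * 2 ^ (d - 1) := Nat.mul_le_mul_right _ hm
      have h8 : 2 * 2 ^ (d - 1) = 2 ^ d := by
        rw [← pow_succ']
        congr 1
        omega
      omega
  · intro k hk h1 h2
    have h3 := key _ fun j => Q172.Hadw.rel_all (B j) (hB j).1 (hB j).2 k hk (h1 j)
    refine mono h3 ?_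
    rw [Finset.sum_const, Finset.card_univ, Fintype.card_fin, smul_eq_mul]
    have hkR : (2 : ℝ) ≤ k := by exact_mod_cast hk
    have h4 : (0 : ℝ) ≤ 3 * 2 ^ k * (k * Real.log (2 * k ^ 2 + 2 * k + 1)) := by
      have : 0 ≤ Real.log (2 * (k : ℝ) ^ 2 + 2 * k + 1) := Real.log_nonneg (by nlinarith)
      positivity
    have h5 : ((m * ⌊(3 * 2 ^ k * (k * Real.log (2 * k ^ 2 + 2 * k + 1)) : ℝ)⌋₊ : ℕ) : ℝ) ≤
        2 ^ d := by
      push_cast
      calc (m : ℝ) * (⌊(3 * 2 ^ k * (k * Real.log (2 * k ^ 2 + 2 * k + 1)) : ℝ)⌋₊ : ℝ)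
          ≤ m * (3 * 2 ^ k * (k * Real.log (2 * k ^ 2 + 2 * k + 1))) :=
            mul_le_mul_of_nonneg_left (Nat.floor_le h4) (by positivity)
        _ = 3 * (m : ℝ) * 2 ^ k * (k * Real.log (2 * k ^ 2 + 2 * k + 1)) := by ring
        _ ≤ 2 ^ d := h2
    exact_mod_cast h5

end Pool.Agent.Results.MP_eba1ef_gt.ConvexHulls
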