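import Mathlib
import Pool.Agent.Q172.Hadw.Poly

set_option autoImplicit false

/-!
# MP_eba1ef_gt: polytopes with few facets, and bodies whose extreme points lie on many of few
# hyperplanes

1. Every polytope in `ℝ^d`, `d ≥ 2`, with at most `2 d - 2 (d log (3 d))^(1/2)` facets is covered by
   fewer than `2^d` translates of its interior. More precisely: the intersection of `n` half-spaces,
   if it is a convex body and `n ≤ 2 d - k` with `k (k + 1) ≥ 4 d log (3 d)`. So for every `ε > 0` the
   conjecture is true, with strict inequality, for all polytopes with at most `(2 - ε) d` facets in all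
   sufficiently high dimensions. (The cube has `2 d` facets. For polytopes with at most about
   `3 d / 2` facets the upper bound theorem gives at most `2^d` vertices, and there is nothing to
   prove; with `2 d - o(d)` facets there may be more than `2.59^d` vertices.)
2. General form. Let `H_1, …, H_n` be hyperplanes in `ℝ^d` and `K` a convex body (any convex body, not
   necessarily a polytope) such that every extreme point of `K` lies on `r` of the hyperplanes, with
   independent normals, and let `k = 2 r - n ≥ 1`. Then `K` is covered by at most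
   `1 + 1.65 · 2^d · e^(-k (k + 1) / (4 r)) · (n log 2 + (d - r) log (2 d² + 2 d + 1))`
   translates of its interior. (The hyperplanes need not support `K`.)
3. If the extreme points of a convex body in `ℝ^d` have, with respect to some basis, at most `t`
   nonzero coordinates, `(d - 2 t)² ≥ 8 d log d`, `2 t ≤ d`, then it is covered by fewer than `2^d`
   translates of its interior. This is the case for the convex hull of any convex sets in the
   coordinate subspaces of dimension `d/2 - (2 d log d)^(1/2)`.

The proof. Let `J` be a set of `s` of the hyperplanes with independent normals, `L_J` their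
intersection, of dimension `d - s`. (a) For a finite set of points of `K ∩ L_J` there is a translate of
a slightly smaller copy of `K ∩ L_J` that contains about the fraction `2^(-(d-s))` of the points: this is
the inequality behind the theorem `AllConvexBodies` of the starting files, in the flat `L_J`. A small
shift towards an interior point of `K` turns this into one direction that moves all these points into
the interior of `K`; the codimension of the flat costs nothing. (b) An `r`-set contains the fraction
`C(r,s) / C(n,s)` of all `s`-sets, so some flat `L_J` contains this fraction of the points not yet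
illuminated. The product of the two fractions is `2^(-d)` times the product of the numbers
`2 (r - i) / (n - i)`, `i < s`, each of which is greater than one for `i < k = 2 r - n`. (c) Apply this
greedily to nets of all the sections of `K` by the flats of dimension `d - r`.
-/

open scoped RealInnerProductSpace

namespace Pool.Agent.Results.MP_eba1ef_gt.FewFacets

/-- The Euclidean space `ℝ^d`. -/
abbrev E (d : ℕ) : Type := EuclideanSpace ℝ (Fin d)

/-- `K` is a convex body: convex, compact, with nonempty interior. -/
def IsConvexBody {d : ℕ} (K : Set (E d)) : Prop :=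
  Convex ℝ K ∧ IsCompact K ∧ (interior K).Nonempty

/-- `K` is covered by fewer than `2^d` translates of its interior. -/
def Fewer {d : ℕ} (K : Set (E d)) : Prop :=
  ∃ T : Finset (E d), T.card < 2 ^ d ∧ K ⊆ ⋃ t ∈ T, (fun x => t + x) '' interior K

/-- The intersection of the half-spaces `⟪a j, x⟫ ≤ b j`. -/
def Poly {d n : ℕ} (a : Fin n → E d) (b : Fin n → ℝ) : Set (E d) := {x | ∀ j, ⟪a j, x⟫ ≤ b j}

/-- Every extreme point of `K` lies on `r` of the hyperplanes `g i = c i`, with linearly independent
`g i`. -/
def ExtremeOn {d n : ℕ} (r : ℕ) (g : Fin n → (E d →ₗ[ℝ] ℝ)) (c : Fin n → ℝ) (K : Set (E d)) :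
    Prop :=
  ∀ x ∈ Set.extremePoints ℝ K, ∃ I : Finset (Fin n), I.card = r ∧
    LinearIndependent ℝ (fun i : I => g i) ∧ ∀ i ∈ I, g i x = c i

/-- **Main theorem.** -/
theorem result :
    -- 1. polytopes with few facets
    (∀ (d n k : ℕ) (a : Fin n → E d) (b : Fin n → ℝ), 2 ≤ d → IsConvexBody (Poly a b) →
      n + k ≤ 2 * d → 4 * d * Real.log (3 * d) ≤ k * (k + 1) → Fewer (Poly a b)) ∧
    -- 2. the general bound
    (∀ (d n r k : ℕ) (K : Set (E d)) (g : Fin n → (E d →ₗ[ℝ] ℝ)) (c : Fin n → ℝ), 2 ≤ d →
      IsConvexBody K → ExtremeOn r g c K → 1 ≤ k → n + k = 2 * r →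
      ∃ T : Finset (E d), K ⊆ ⋃ t ∈ T, (fun x => t + x) '' interior K ∧
        (T.card : ℝ) ≤ 1 + 1.65 * 2 ^ d * Real.exp (-(k * (k + 1) / (4 * r))) *
          (n * Real.log 2 + ((d : ℝ) - r) * Real.log (2 * d ^ 2 + 2 * d + 1))) ∧
    -- 3. extreme points with few nonzero coordinates
    (∀ (d t : ℕ) (K : Set (E d)) (β : Module.Basis (Fin d) ℝ (E d)), 2 ≤ d → IsConvexBody K →
      2 * t ≤ d → 8 * (d * Real.log d) ≤ ((d : ℝ) - 2 * t) ^ 2 →
      (∀ x ∈ Set.extremePoints ℝ K, {i | β.repr x i ≠ 0}.ncard ≤ t) → Fewer K) := by
  refine ⟨?_, ?_, ?_⟩
  · intro d n k a b hd hK hn hk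
    exact Q172.Hadw.poly_cover hd n k a b hK.1 hK.2.1 hK.2.2 hn hk
  · intro d n r k K g c hd hK hext hk1 hk
    obtain ⟨T, hT, hcov⟩ := Q172.Hadw.explicit_bound hd n r k hk1 hk K hK.1 hK.2.1 hK.2.2 g c hext
    exact ⟨T, hcov, hT⟩
  · intro d t K β hd hK ht hk hext
    exact Q172.Hadw.sparse_cover hd t K hK.1 hK.2.1 hK.2.2 β ht hk hext

end Pool.Agent.Results.MP_eba1ef_gt.FewFacets
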