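import Mathlib
import Pool.Agent.Q172.Hadw.Stab

set_option autoImplicit false

/-!
# MP_eba1ef_gt: the conjecture is true for `k`-fold coverings, for all large `k`

The Levi–Hadwiger conjecture asks for a covering of each convex body in `ℝ^d` by `2^d` translates of its
interior. Consider `k`-fold coverings: families of translates, repetitions allowed, which cover
each point of the body at least `k` times. The corresponding number is `k 2^d`.

1. For every `d` there is a `k₀` such that for all `k ≥ k₀` **every** convex body in `ℝ^d` has a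
   `k`-fold covering by `k 2^d` translates of its interior. (For `k = 1` this is the conjecture.)
2. For a parallelotope one cannot do with fewer, for any `k`; and the parallelotopes are the only
   convex bodies for which `k 2^d` is necessary for all `k`.
3. Stability. For every `η > 0` there are `ε > 0` and `k₀`, depending on `d` and `η` only, such that
   every convex body in `ℝ^d` which is not `(1+η)`-close to a parallelotope has for all `k ≥ k₀` a
   `k`-fold covering by at most `(2^d - ε) k` translates of its interior (if this is an integer, the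
   number in general is rounded up). Close means: there are a parallelotope `P` and `c ∈ P`
   with `P ⊆ K ⊆ c + (1+η)(P - c)`.

The proof: the theorem on fractional coverings (`Pool.Agent.H2R2.Frac.primal`) says that each convex
body has a fractional covering by translates of its interior of total weight at most `2^d`, and `< 2^d`
if it is not a parallelotope. If `K` is not a parallelotope then one may round up the weights, multiplied
by `k`, for large `k`. If `K` is a parallelotope then one uses the covering by `2^d` translates. Both kinds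
of coverings are stable: the same families cover all bodies near `K` in the Hausdorff metric. The convex
bodies in a normal position, between two balls, form a compact set. So finitely many
neighbourhoods suffice.
-/

open scoped RealInnerProductSpace

namespace Pool.Agent.Results.MP_eba1ef_gt.MultiFold

/-- The Euclidean space `ℝ^d`. -/
abbrev E (d : ℕ) : Type := EuclideanSpace ℝ (Fin d)

/-- `K` is a convex body: convex, compact, with nonempty interior. -/
def IsConvexBody {d : ℕ} (K : Set (E d)) : Prop :=
  Convex ℝ K ∧ IsCompact K ∧ (interior K).Nonempty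

/-- `K` has a `k`-fold covering by `N` translates of its interior: there are vectors
`c_1, …, c_N` such that each point of `K` lies in `c_i + int K` for at least `k` indices `i`. -/
def FoldCover {d : ℕ} (K : Set (E d)) (k N : ℕ) : Prop :=
  ∃ c : Fin N → E d, ∀ x ∈ K, k ≤ Nat.card {i : Fin N // x ∈ (fun y => c i + y) '' interior K}

/-- `P` is a parallelotope: the set of all `p + ∑ a_i v_i`, `0 ≤ a_i ≤ 1`, for linearly
independent vectors `v_1, …, v_d`. -/
def IsParallelotope {d : ℕ} (P : Set (E d)) : Prop :=
  ∃ (p : E d) (v : Fin d → E d), LinearIndependent ℝ v ∧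
    P = {x | ∃ a : Fin d → ℝ, (∀ i, 0 ≤ a i ∧ a i ≤ 1) ∧ x = p + ∑ i, a i • v i}

/-- `K` is `(1+η)`-close to a parallelotope: `P ⊆ K ⊆ c + (1+η)(P - c)` for a parallelotope `P` and a
point `c` of `P`. -/
def CloseToParallelotope {d : ℕ} (η : ℝ) (K : Set (E d)) : Prop :=
  ∃ (P : Set (E d)) (c : E d), IsParallelotope P ∧ c ∈ P ∧ P ⊆ K ∧
    K ⊆ (fun y => c + (1 + η) • (y - c)) '' P

/-- **Main theorem.** -/
theorem result :
    -- 1. the conjecture for `k`-fold coverings, `k` large
    (∀ d : ℕ, 1 ≤ d → ∃ k₀ : ℕ, ∀ K : Set (E d), IsConvexBody K →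
      ∀ k, k₀ ≤ k → FoldCover K k (k * 2 ^ d)) ∧
    -- 2. the equality case
    (∀ d : ℕ, 1 ≤ d → ∀ K : Set (E d), IsConvexBody K →
      (IsParallelotope K ↔ ∀ k N : ℕ, FoldCover K k N → k * 2 ^ d ≤ N)) ∧
    -- 3. stability
    (∀ d : ℕ, 1 ≤ d → ∀ η : ℝ, 0 < η → ∃ (ε : ℝ) (k₀ : ℕ), 0 < ε ∧
      ∀ K : Set (E d), IsConvexBody K → ¬ CloseToParallelotope η K →
        ∀ k N : ℕ, k₀ ≤ k → (2 ^ d - ε) * k ≤ N → FoldCover K k N) := by
  refine ⟨?_, ?_, ?_⟩
  · intro d hd
    obtain ⟨k₀, h⟩ := Q172.Hadw.multi d hd
    exact ⟨k₀, fun K hK k hk => Q172.Hadw.mcover_of_kfold K k _ (h K hK.1 hK.2.1 hK.2.2 k hk)⟩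
  · intro d hd K hK
    refine ⟨fun hP k N h => Q172.Hadw.par_lower hd K hP k N h, fun h => ?_⟩
    obtain ⟨-, hpar⟩ := Pool.Agent.H2R2.Frac.primal d hd K hK.2.1 hK.1 hK.2.2
    refine hpar.1 fun T w hw hcov => ?_
    by_contra hlt
    rw [not_le] at hlt
    set δ : ℝ := 2 ^ d - ∑ t ∈ T, w t with hδ
    have hδ0 : 0 < δ := by rw [hδ]; linarith
    obtain ⟨k, hk⟩ := exists_nat_gt (((T.card : ℝ) + 1) / δ)
    rw [div_lt_iff₀ hδ0] at hk
    have hpos : (0:ℝ) ≤ k * ∑ t ∈ T, w t := mul_nonneg (by positivity) (Finset.sum_nonneg hw)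
    have h1 : (k : ℝ) * ∑ t ∈ T, w t + T.card + 1 < k * 2 ^ d := by
      have h2 : ∑ t ∈ T, w t = 2 ^ d - δ := by rw [hδ]; ring
      rw [h2]
      nlinarith
    have h3 : 1 ≤ k * 2 ^ d := by
      have : (1:ℝ) < ((k * 2 ^ d : ℕ) : ℝ) := by
        push_cast
        have : (0:ℝ) ≤ T.card := by positivity
        linarith
      exact_mod_cast this.le
    have h4 := Q172.Hadw.kfold_of_frac K T w hw hcov k (k * 2 ^ d - 1) (by
      rw [Nat.cast_sub h3]
      push_cast
      linarith)
    have h5 := h k _ (Q172.Hadw.mcover_of_kfold K k _ h4)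
    omega
  · intro d hd η hη
    obtain ⟨ε, k₀, hε, h⟩ := Q172.Hadw.stability d hd η hη
    refine ⟨ε, k₀, hε, fun K hK hcl k N hk hN => ?_⟩
    rcases h K hK.1 hK.2.1 hK.2.2 with ⟨P, c, hP, hc, hPK, hKP⟩ | h
    · refine absurd ⟨P, c, hP, hc, hPK, fun x hx => ⟨_, hKP x hx, ?_⟩⟩ hcl
      simp only
      rw [add_sub_cancel_left, smul_smul, mul_inv_cancel₀ (by linarith), one_smul]
      abel
    · exact Q172.Hadw.mcover_of_kfold K k N (h k hk N hN)

end Pool.Agent.Results.MP_eba1ef_gt.MultiFold
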