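import Mathlib
import Pool.Agent.Q172.Hadw.Slabs

set_option autoImplicit false

/-!
# MP_eba1ef_gt: truncated parallelotopes, and intersections of `d + 1` slabs

1. Let `C` be a parallelotope in `ℝ^d` and `D_1, …, D_N` convex sets such that the pieces
   `C \ int D_k`, which they cut off, are pairwise disjoint. Each `D_k` is associated with a
   vertex `σ` of `C` (different ones may have the same vertex) and closed under moving away from
   it: if `x ∈ D_k` and each coordinate of `z`, with respect to the edges of `C`, is at least as far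
   from the one of `σ`, in the direction away from `σ`, as that of `x`, then `z ∈ D_k`. If
   `K = C ∩ D_1 ∩ … ∩ D_N` is a convex body then it is covered by `2^d` translates of its interior.
2. This contains all truncations of `C` by half-spaces `H_1, …, H_N`, any number of them and in any
   directions, such that the pieces `C \ int H_k` are pairwise disjoint.
3. So the conjecture is true for the intersections of `d + 1` slabs in `ℝ^d`, in particular for all
   centrally symmetric convex polytopes with at most `2 d + 2` facets (for all `d`). Equivalently: for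
   all `d`-dimensional sections of `(d+1)`-dimensional parallelotopes.

The proof. For each vertex `η` of `C = [-1,1]^d` there is one direction. It has the signs `- η_i`. If `η`
is not in the interior of `D_k`, then the components with `η_i = σ_i`, `σ` the vertex of `D_k`, are large,
`M`, and the other ones are `1`; here `M` depends on the distance of an interior point `p` of `K` from the
boundary of `C`. Let `x` be a boundary point of `K` and, say, not in the interior of `D_k`. The vertex `η` of
the face of `C` containing `x` that is the nearest one to `σ` is not in the interior of `D_k` either. If one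
moves from `x` in its direction, one gets farther away from `σ`, in each coordinate, than on the segment
from `x` to `p`. So one gets into the interior of `D_k`, and of `K`.
-/

open scoped RealInnerProductSpace

namespace Pool.Agent.Results.MP_eba1ef_gt.TruncatedParallelotopes

/-- The Euclidean space `ℝ^d`. -/
abbrev E (d : ℕ) : Type := EuclideanSpace ℝ (Fin d)

/-- `K` is a convex body: convex, compact, with nonempty interior. -/
def IsConvexBody {d : ℕ} (K : Set (E d)) : Prop :=
  Convex ℝ K ∧ IsCompact K ∧ (interior K).Nonempty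

/-- `K` is covered by at most `2^d` translates of its interior. -/
def Conj {d : ℕ} (K : Set (E d)) : Prop :=
  ∃ T : Finset (E d), T.card ≤ 2 ^ d ∧ K ⊆ ⋃ t ∈ T, (fun x => t + x) '' interior K

/-- The parallelotope with centre `o` and half-edges `β i`: the points `o + ∑ y_i β_i`,
`-1 ≤ y_i ≤ 1`. -/
def Parallelotope {d : ℕ} (β : Module.Basis (Fin d) ℝ (E d)) (o : E d) : Set (E d) :=
  {x | ∀ i, |β.repr (x - o) i| ≤ 1}

/-- `D` is closed under moving away from the vertex `o + ∑ σ_i β_i`, `σ_i = ± 1`: if `x ∈ D` and
`σ_i z_i ≤ σ_i x_i` for all coordinates, then `z ∈ D`. -/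
def ClosedAway {d : ℕ} (β : Module.Basis (Fin d) ℝ (E d)) (o : E d) (σ : Fin d → ℝ)
    (D : Set (E d)) : Prop :=
  ∀ x ∈ D, ∀ z, (∀ i, σ i * β.repr (z - o) i ≤ σ i * β.repr (x - o) i) → z ∈ D

/-- **Main theorem.** -/
theorem result :
    -- 1. truncations by convex sets, each closed under moving away from a vertex
    (∀ (d N : ℕ) (β : Module.Basis (Fin d) ℝ (E d)) (o : E d) (D : Fin N → Set (E d))
      (σ : Fin N → Fin d → ℝ), (∀ k i, σ k i = 1 ∨ σ k i = -1) →
      (∀ k, Convex ℝ (D k) ∧ ClosedAway β o (σ k) (D k)) →
      (∀ x ∈ Parallelotope β o, ∀ k l, k ≠ l → x ∈ interior (D k) ∨ x ∈ interior (D l)) →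
      IsConvexBody (Parallelotope β o ∩ ⋂ k, D k) → Conj (Parallelotope β o ∩ ⋂ k, D k)) ∧
    -- 2. truncations by half-spaces
    (∀ (d N : ℕ) (β : Module.Basis (Fin d) ℝ (E d)) (o : E d) (g : Fin N → (E d →ₗ[ℝ] ℝ))
      (c : Fin N → ℝ),
      (∀ x ∈ Parallelotope β o, ∀ k l, k ≠ l → g k x < c k ∨ g l x < c l) →
      IsConvexBody (Parallelotope β o ∩ {x | ∀ k, g k x ≤ c k}) →
      Conj (Parallelotope β o ∩ {x | ∀ k, g k x ≤ c k})) ∧
    -- 3. intersections of `d + 1` slabs
    (∀ (d : ℕ) (a : Fin (d + 1) → E d) (l r : Fin (d + 1) → ℝ), (∀ j, a j ≠ 0) →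
      IsConvexBody {x | ∀ j, l j ≤ ⟪a j, x⟫ ∧ ⟪a j, x⟫ ≤ r j} →
      Conj {x | ∀ j, l j ≤ ⟪a j, x⟫ ∧ ⟪a j, x⟫ ≤ r j}) := by
  refine ⟨?_, ?_, ?_⟩
  · intro d N β o D σ hσ hD hdisj hK
    exact Q172.Hadw.trunc_cover _ hK.1 hK.2.1 hK.2.2 β o D σ hσ (fun k => (hD k).1)
      (fun k => (hD k).2) rfl hdisj
  · intro d N β o g c hdisj hK
    exact Q172.Hadw.half_cover _ hK.1 hK.2.1 hK.2.2 β o g c rfl hdisj
  · intro d a l r ha hK
    exact Q172.Hadw.slabs_cover a l r ha hK.1 hK.2.1 hK.2.2

end Pool.Agent.Results.MP_eba1ef_gt.TruncatedParallelotopes
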